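import Mathlib
import Pool.Agent.H27.AS.K

/-!
# Primes `p` with `p ^ 2 + p + a` prime in ARBITRARY sets of primes: only the primes up to a constant matter

Let `f` be an integral polynomial of degree `d ≥ 1` with positive leading coefficient, for instance `f = X ^ 2 + X`. For
ANY set `S` of primes `p ≤ x`, the number of the `p` in `S` with `f(p) + a` prime is, up to `ε x / log ^ 2 x`, the number of
the `p` in `S` for which `f(p) + a` has no prime factor `≤ w`, divided by `d log x ∏_{l ≤ w} (1 - 1 / l)`, for all but a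
proportion `ε` of the constants `a` up to the size of `x ^ d`; here `w` is a constant which depends on `ε` only (and on `f`).

The replacement of the primes among the values by their sieve model with arbitrary bounded weights is the theorem
`sys_diffP` of the library (`Pool.Agent.H373R2.T7`, circle method).
New here (helper27): the second moment over the constants of the part of the model which comes from the primes in
`(w, log ^ C x]`: pair correlations of the sieve model, the inequality of Brun and Titchmarsh and an estimate for the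
common small prime factors of `f(p) - f(p')` on average over the primes `p` (`avg`, `pair`, `variance`, `part2a`).
-/

set_option autoImplicit false

namespace Pool.Agent.Results.MP_82233c_nt.ArbitrarySetsOfPrimes

open Finset Polynomial Filter Topology

/-- the primes up to `z` -/
def primes (z : ℕ) : Finset ℕ := (Icc 1 z).filter Nat.Prime

/-- the product of `1 - 1 / l` over the primes `l ≤ z` -/
noncomputable def V (z : ℕ) : ℝ := ∏ l ∈ primes z, (1 - 1 / (l : ℝ))

/-- the number of the `p` in `S` for which `f(p) + a` is prime -/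
noncomputable def cnt (f : ℤ[X]) (S : Finset ℕ) (a : ℕ) : ℕ := #(S.filter (fun p : ℕ => (f.eval (p : ℤ) + a).toNat.Prime))

open Classical in
/-- the number of the `p` in `S` for which `f(p) + a` has no prime factor `l ≤ w` -/
noncomputable def rgh (f : ℤ[X]) (S : Finset ℕ) (w a : ℕ) : ℕ :=
  #(S.filter (fun p : ℕ => ∀ l ∈ primes w, ¬ (l : ℤ) ∣ f.eval (p : ℤ) + a))

/-- For every `ε > 0` there is `w₀` such that for every `w ≥ w₀` and all large `x`: if `N` is between `x ^ d / B` and
`B x ^ d`, then for EVERY set `S` of primes `p ≤ x` and for all `a ≤ N` with at most `ε N` exceptions the number of the `p`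
in `S` with `f(p) + a` prime differs by at most `ε x / log ^ 2 x` from the number of the `p` in `S` for which `f(p) + a` has
no prime factor `≤ w`, divided by `V(w) d log x`. -/
theorem result (f : ℤ[X]) (hd : 1 ≤ f.natDegree) (hl : 0 < f.leadingCoeff) (B : ℕ) (hB : 1 ≤ B) (ε : ℝ) (hε : 0 < ε) :
    ∃ w₀ : ℕ, ∀ w : ℕ, w₀ ≤ w → ∃ x₀ : ℕ, ∀ x : ℕ, x₀ ≤ x → ∀ N : ℕ, N ≤ B * x ^ f.natDegree →
      x ^ f.natDegree ≤ B * N → ∀ S : Finset ℕ, S ⊆ primes x →
      ∃ Bad ⊆ Icc 1 N, (#Bad : ℝ) ≤ ε * N ∧ ∀ a ∈ Icc 1 N, a ∉ Bad →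
        |(cnt f S a : ℝ) - (V w)⁻¹ * rgh f S w a / (f.natDegree * Real.log x)| ≤ ε * (x / Real.log x ^ 2) := by
  obtain ⟨w₀, h0⟩ := Pool.Agent.H27.AS.part2a f hd hl B hB (min ε 1) (lt_min hε one_pos) (min_le_right _ _)
  refine ⟨w₀, fun w hw => ?_⟩
  obtain ⟨x₀, h1⟩ := h0 w hw
  refine ⟨x₀ + 3, fun x hx N hN1 hN2 S hS => ?_⟩
  obtain ⟨Bad, g1, g2, g3⟩ := h1 x (by omega) N hN1 hN2 S hS
  refine ⟨Bad, g1, g2.trans (mul_le_mul_of_nonneg_right (min_le_left _ _) (Nat.cast_nonneg _)), fun a ha haB => ?_⟩
  have h2 : |(f.natDegree : ℝ) * Real.log x * cnt f S a - (V w)⁻¹ * rgh f S w a| ≤ min ε 1 * (x / Real.log x) :=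
    g3 a ha haB
  have hx3 : (3 : ℝ) ≤ x := by exact_mod_cast (by omega : 3 ≤ x)
  have hL : 0 < Real.log x := Real.log_pos (by linarith)
  have hdr : (1 : ℝ) ≤ f.natDegree := by exact_mod_cast hd
  have hx0 : (0 : ℝ) < x := by linarith
  have e : (f.natDegree : ℝ) * Real.log x * cnt f S a - (V w)⁻¹ * rgh f S w a =
      (f.natDegree * Real.log x) * ((cnt f S a : ℝ) - (V w)⁻¹ * rgh f S w a / (f.natDegree * Real.log x)) := by
    rw [mul_sub, mul_div_cancel₀ _ (by positivity)]
  rw [e, abs_mul, abs_of_pos (by positivity : (0 : ℝ) < f.natDegree * Real.log x)] at h2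
  have h3 : min ε 1 * (x / Real.log x) ≤ (f.natDegree * Real.log x) * (ε * (x / Real.log x ^ 2)) := by
    have e2 : (f.natDegree * Real.log x) * (ε * (x / Real.log x ^ 2)) = f.natDegree * (ε * (x / Real.log x)) := by
      field_simp
    rw [e2]
    have h4 : min ε 1 * (x / Real.log x) ≤ ε * (x / Real.log x) :=
      mul_le_mul_of_nonneg_right (min_le_left _ _) (by positivity)
    have h5 : 0 ≤ ε * (x / Real.log x) := by positivity
    nlinarith
  exact le_of_mul_le_mul_left (h2.trans h3) (by positivity)

end Pool.Agent.Results.MP_82233c_nt.ArbitrarySetsOfPrimes
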