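import Mathlib
import Pool.Agent.H27.AS.K

/-!
# Every dense set of primes contains the expected number of `p` with `p ^ 2 + p + a` prime, for a positive proportion of the `a`

Let `f` be an integral polynomial of degree `d ≥ 1` with positive leading coefficient, for instance `f = X ^ 2 + X`, and
let `S` be an ARBITRARY set of at least `δ x / log x` primes `p ≤ x`. For a positive proportion of the constants `a` up to
the size of `x ^ d` at least `c x / log ^ 2 x` elements `p` of `S` are such that `f(p) + a` is prime, the expected order of
magnitude. (A positive proportion is the best possible here: `S` may consist of primes in one residue class.)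

The replacement of the primes among the values by their sieve model with arbitrary bounded weights is the theorem
`sys_diffP` of the library (`Pool.Agent.H373R2.T7`, circle method).
New here (helper27): the second moment over the constants of the part of the model which comes from the primes in
`(w, log ^ C x]`: pair correlations of the sieve model, the inequality of Brun and Titchmarsh and an estimate for the
common small prime factors of `f(p) - f(p')` on average over the primes `p` (`avg`, `pair`, `variance`, `part2a`).
The lower bound uses in addition the inequality of Paley and Zygmund (`second`, `part4`).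
-/

set_option autoImplicit false

namespace Pool.Agent.Results.MP_82233c_nt.DenseSetsOfPrimes

open Finset Polynomial Filter Topology

/-- the primes up to `z` -/
def primes (z : ℕ) : Finset ℕ := (Icc 1 z).filter Nat.Prime

/-- the number of the `p` in `S` for which `f(p) + a` is prime -/
noncomputable def cnt (f : ℤ[X]) (S : Finset ℕ) (a : ℕ) : ℕ := #(S.filter (fun p : ℕ => (f.eval (p : ℤ) + a).toNat.Prime))

/-- For every `δ > 0` there is `c > 0` such that for all large `x`, all `N` between `x ^ d / B` and `B x ^ d` and EVERY set
`S` of at least `δ x / log x` primes `p ≤ x` there are at least `c N` integers `1 ≤ a ≤ N` such that `f(p) + a` is prime for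
at least `c x / log ^ 2 x` elements `p` of `S`. -/
theorem result (f : ℤ[X]) (hd : 1 ≤ f.natDegree) (hl : 0 < f.leadingCoeff) (B : ℕ) (hB : 1 ≤ B) (δ : ℝ) (hδ : 0 < δ) :
    ∃ c : ℝ, 0 < c ∧ ∃ x₀ : ℕ, ∀ x : ℕ, x₀ ≤ x → ∀ N : ℕ, N ≤ B * x ^ f.natDegree →
      x ^ f.natDegree ≤ B * N → ∀ S : Finset ℕ, S ⊆ primes x → δ * (x / Real.log x) ≤ #S →
      c * N ≤ #((Icc 1 N).filter (fun a => c * (x / Real.log x ^ 2) ≤ cnt f S a)) := by
  obtain ⟨c, hc, x₀, h⟩ := Pool.Agent.H27.AS.part4 f hd hl B hB δ hδ
  exact ⟨c, hc, x₀, h⟩

end Pool.Agent.Results.MP_82233c_nt.DenseSetsOfPrimes
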