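import Mathlib
import Pool.Agent.H27.AS.K

/-!
# The formula of Bateman and Stemmler inside every equidistributed set of primes, for almost all constants

Let `f` be an integral polynomial of degree `d ≥ 1` with positive leading coefficient, for instance `f = X ^ 2 + X`, and
let `Q` be ANY set of primes which has the relative density `ρ` in the reduced residue classes of every FIXED modulus;
nothing is assumed about the rate of convergence, about moduli which grow, or about the structure of `Q`. The number of the
primes `p ≤ x` in `Q` with `f(p) + a` prime is `ρ` times the number predicted by Bateman, Horn and Stemmler up to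
`ε x / log ^ 2 x`, for all but a proportion `ε` of the constants `a` up to the size of `x ^ d`.

The replacement of the primes among the values by their sieve model with arbitrary bounded weights is the theorem
`sys_diffP` of the library (`Pool.Agent.H373R2.T7`, circle method).
New here (helper27): the second moment over the constants of the part of the model which comes from the primes in
`(w, log ^ C x]`: pair correlations of the sieve model, the inequality of Brun and Titchmarsh and an estimate for the
common small prime factors of `f(p) - f(p')` on average over the primes `p` (`avg`, `pair`, `variance`, `part2a`).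
-/

set_option autoImplicit false

namespace Pool.Agent.Results.MP_82233c_nt.EquidistributedSetsOfPrimes

open Finset Polynomial Filter Topology

/-- the primes up to `z` -/
def primes (z : ℕ) : Finset ℕ := (Icc 1 z).filter Nat.Prime

/-- the number of the `p` in `S` for which `f(p) + a` is prime -/
noncomputable def cnt (f : ℤ[X]) (S : Finset ℕ) (a : ℕ) : ℕ := #(S.filter (fun p : ℕ => (f.eval (p : ℤ) + a).toNat.Prime))

open Classical in
/-- the primes `p ≤ x` in the set `Q` -/
noncomputable def upto (Q : Set ℕ) (x : ℕ) : Finset ℕ := (primes x).filter (fun p => p ∈ Q)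

/-- `Q` has the relative density `ρ` among the primes in every reduced residue class: the number of the primes `p ≤ x` in
`Q` with `p ≡ r (mod q)` is `(ρ + o(1)) x / (φ(q) log x)`, for all fixed `q ≥ 1` and `r` prime to `q` -/
def Equidistributed (Q : Set ℕ) (ρ : ℝ) : Prop := ∀ q r : ℕ, 1 ≤ q → Nat.Coprime r q →
  Tendsto (fun x : ℕ => (#((upto Q x).filter (fun p => p % q = r % q)) : ℝ) / (x / Real.log x)) atTop
    (𝓝 (ρ / Nat.totient q))

/-- the number of the zeros of `r (f(r) + a)` modulo `l` -/
def zeros (f : ℤ[X]) (a l : ℕ) : ℕ := #((range l).filter (fun r : ℕ => (l : ℤ) ∣ (r : ℤ) * (f.eval (r : ℤ) + a)))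

/-- the product over the primes `l ≤ w` of the local factors of Bateman, Horn and Stemmler for the numbers `p` and
`f(p) + a` -/
noncomputable def sing (f : ℤ[X]) (w a : ℕ) : ℝ := ∏ l ∈ primes w, (1 - (zeros f a l : ℝ) / l) / (1 - 1 / (l : ℝ)) ^ 2

/-- For every `ε > 0` there is `w₀` such that for every `w ≥ w₀`, every set `Q` of relative density `ρ` in all reduced
residue classes and all large `x`: if `N` is between `x ^ d / B` and `B x ^ d`, then for all `a ≤ N` with at most `ε N`
exceptions the number of the primes `p ≤ x` in `Q` with `f(p) + a` prime differs from `ρ 𝔖_w(a) x / (d log ^ 2 x)` by at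
most `ε x / log ^ 2 x`. -/
theorem result (f : ℤ[X]) (hd : 1 ≤ f.natDegree) (hl : 0 < f.leadingCoeff) (B : ℕ) (hB : 1 ≤ B) (ε : ℝ) (hε : 0 < ε) :
    ∃ w₀ : ℕ, ∀ w : ℕ, w₀ ≤ w → ∀ (Q : Set ℕ) (ρ : ℝ), Equidistributed Q ρ →
      ∃ x₀ : ℕ, ∀ x : ℕ, x₀ ≤ x → ∀ N : ℕ, N ≤ B * x ^ f.natDegree → x ^ f.natDegree ≤ B * N →
      ∃ Bad ⊆ Icc 1 N, (#Bad : ℝ) ≤ ε * N ∧ ∀ a ∈ Icc 1 N, a ∉ Bad →
        |(cnt f (upto Q x) a : ℝ) - ρ * sing f w a * (x / (f.natDegree * Real.log x ^ 2))| ≤
          ε * (x / Real.log x ^ 2) := by
  obtain ⟨w₀, h0⟩ := Pool.Agent.H27.AS.part3a f hd hl B hB (min ε 1) (lt_min hε one_pos) (min_le_right _ _)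
  refine ⟨w₀, fun w hw Q ρ hQ => ?_⟩
  obtain ⟨x₀, h1⟩ := h0 w hw Q ρ hQ
  refine ⟨x₀ + 3, fun x hx N hN1 hN2 => ?_⟩
  obtain ⟨Bad, g1, g2, g3⟩ := h1 x (by omega) N hN1 hN2
  refine ⟨Bad, g1, g2.trans (mul_le_mul_of_nonneg_right (min_le_left _ _) (Nat.cast_nonneg _)), fun a ha haB => ?_⟩
  exact (g3 a ha haB).trans (mul_le_mul_of_nonneg_right (min_le_left _ _) (by positivity))

end Pool.Agent.Results.MP_82233c_nt.EquidistributedSetsOfPrimes
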