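import Pool.Agent.H82.UC.Pairs

/-!
# Primes near `m + s` and near `m² + m + 1 + t` at the same time, for almost all `m` and an arbitrary thin set of
translations `(s, t)`

The question asks for the number of the primes `p` for which `p² + p + 1` is also prime. Here the pair
`(m, m² + m + 1)` is translated by the pairs `(s, t)` of an ARBITRARY set `W` of at least `X³ / log ^ C X` pairs with
`s ≤ X`, `t ≤ X²` (a set of logarithmically small density without any structure). We prove: for all `m ≤ X` with at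
most `X / log ^ U X` exceptions (so for almost all primes `m`, too) the following holds for all lengths
`y, z ≥ log ^ K X`: for at least `(1/16 - 2ε) |W|` of the pairs `(s, t) ∈ W` there are at least `ε y / log X` primes
in `(m + s, m + s + y]` AND at least `ε z / (3 log X)` primes in `(m² + m + 1 + t, m² + m + 1 + t + z]`. The numbers
`m` and `m² + m + 1` may be replaced by arbitrary integers `a`, `b` at a distance of at most `log ^ A X` from them
(all of them at the same time).

Method: the sizes of the fibres `W_s` are used as a weight on `s`, which is decomposed into its `log ^ O(1) X` level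
sets; for each level set almost all `m` have many primes near the `m + s`. For each single `s` with a large fibre
`W_s` almost all `m` have many primes near the `m² + m + 1 + t`, `t ∈ W_s`; since the number of the exceptions is
smaller than `X` by an arbitrary power of the logarithm, almost all `m` are exceptional for the fibres of a small
part of `W` only. For one family and one set the statement is from the starting library
(`Pool.Agent.TH646.TT.cnt_full`, `Pool.Agent.Q56.TF.Near`).
-/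

set_option autoImplicit false

namespace Pool.Agent.Results.MP_82233c_nt.TranslatedPairs

open Finset

/-- the number of the primes in `(n, n + y]` -/
def primesIn (n y : ℕ) : ℕ := ((Ioc n (n + y)).filter Nat.Prime).card

open Classical in
/-- The integers `a`, `b` are good for the set `W` of pairs: for all integers `y`, `z` with `log ^ K X ≤ y ≤ X` and
`log ^ K X ≤ z ≤ X ^ 2` there are at least `(1/16 - 2ε) |W|` pairs `(s, t)` in `W` with at least `ε y / log X` primes
in `(s + a, s + a + y]` and at least `ε z / (3 log X)` primes in `(t + b, t + b + z]`. -/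
def Good (ε : ℝ) (K X : ℕ) (W : Finset (ℕ × ℕ)) (a b : ℕ) : Prop :=
  ∀ y z : ℕ, Real.log X ^ K ≤ y → y ≤ X → Real.log X ^ K ≤ z → z ≤ X ^ 2 →
    (1 / 16 - 2 * ε) * (W.card : ℝ) ≤
      ((W.filter (fun q => ε * y / Real.log X ≤ (primesIn (q.1 + a) y : ℝ) ∧
        ε * z / (3 * Real.log X) ≤ (primesIn (q.2 + b) z : ℝ))).card : ℝ)

open Classical in
/-- The number of the `m ∈ {1, ..., X}` for which not all integers `a ∈ [1, X]`, `b ∈ [1, 3 X ^ 2]` with
`|a - m| ≤ log ^ A X` and `|b - (m ^ 2 + m + 1)| ≤ log ^ A X` have the property `G`. -/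
noncomputable def exceptions (A X : ℕ) (G : ℕ → ℕ → Prop) : ℕ :=
  ((Icc 1 X).filter (fun m : ℕ => ∃ a b : ℕ, (1 ≤ a ∧ a ≤ X ∧ |(a : ℝ) - m| ≤ Real.log X ^ A) ∧
    (1 ≤ b ∧ b ≤ 3 * X ^ 2 ∧ |(b : ℝ) - ((m : ℝ) ^ 2 + m + 1)| ≤ Real.log X ^ A) ∧ ¬ G a b)).card

open Classical in
/-- The number of the primes `p ≤ X` for which `p`, `p ^ 2 + p + 1` do not have the property `G`. -/
noncomputable def primeExceptions (X : ℕ) (G : ℕ → ℕ → Prop) : ℕ :=
  ((Icc 1 X).filter (fun p : ℕ => p.Prime ∧ ¬ G p (p ^ 2 + p + 1))).card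

/-- Let `A`, `C`, `U` and `0 < ε ≤ 1/16` be fixed. There is a `K` such that for all `X ≥ K` and EVERY set `W` of at
least `X ^ 3 / log ^ C X` pairs `(s, t)` of integers with `1 ≤ s ≤ X`, `1 ≤ t ≤ X ^ 2`:

* for all `m ≤ X` with at most `X / log ^ U X` exceptions, ALL integers `a ∈ [1, X]` and `b ∈ [1, 3 X ^ 2]` with
  `|a - m| ≤ log ^ A X`, `|b - (m ^ 2 + m + 1)| ≤ log ^ A X` are good: for all `y`, `z ≥ log ^ K X` (`y ≤ X`,
  `z ≤ X ^ 2`) at least `(1/16 - 2ε) |W|` of the pairs `(s, t) ∈ W` have at least `ε y / log X` primes in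
  `(s + a, s + a + y]` and at the same time at least `ε z / (3 log X)` primes in `(t + b, t + b + z]`;
* in particular this holds with `a = p`, `b = p ^ 2 + p + 1` for all primes `p ≤ X` with at most `X / log ^ U X`
  exceptions. -/
theorem result (A C U : ℕ) (ε : ℝ) (hε : 0 < ε) (hε1 : ε ≤ 1 / 16) : ∃ K : ℕ, ∀ X : ℕ, K ≤ X →
    ∀ W : Finset (ℕ × ℕ), W ⊆ Icc 1 X ×ˢ Icc 1 (X ^ 2) → (X : ℝ) ^ 3 / Real.log X ^ C ≤ W.card →
      (exceptions A X (Good ε K X W) : ℝ) ≤ X / Real.log X ^ U ∧
      (primeExceptions X (Good ε K X W) : ℝ) ≤ X / Real.log X ^ U := by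
  classical
  obtain ⟨K, hK⟩ := Pool.Agent.H82.UC.pairs A C U ε hε hε1
  obtain ⟨N₀, h0⟩ := Filter.eventually_atTop.1 (hK.and (Pool.Agent.W301.SS.ev_L 1))
  refine ⟨max K N₀, fun X hX W hW hWX => ?_⟩
  obtain ⟨h1, h2⟩ := h0 X ((le_max_right _ _).trans hX)
  have hℓ : 0 < Real.log X := by linarith
  have hWX' : (X : ℝ) ^ 3 ≤ W.card * Real.log X ^ C := by
    rwa [div_le_iff₀ (by positivity)] at hWX
  have hmono : ∀ a b, Pool.Agent.H82.UC.PairGood ε K X W a b → Good ε (max K N₀) X W a b := by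
    intro a b hg y z hy1 hy2 hz1 hz2
    have h3 : Real.log X ^ K ≤ Real.log X ^ (max K N₀) := pow_le_pow_right₀ h2 (le_max_left _ _)
    refine (hg y z (h3.trans hy1) hy2 (h3.trans hz1) hz2).trans ?_
    have h4 : W.filter (fun q => ε * y ≤ (Pool.Agent.W301.SS.pn (q.1 + a) y : ℝ) * Real.log X ∧
        ε * z ≤ (Pool.Agent.W301.SS.pn (q.2 + b) z : ℝ) * (3 * Real.log X)) ⊆
        W.filter (fun q => ε * y / Real.log X ≤ (primesIn (q.1 + a) y : ℝ) ∧
        ε * z / (3 * Real.log X) ≤ (primesIn (q.2 + b) z : ℝ)) := by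
      intro q hq
      obtain ⟨hq1, hq2, hq3⟩ := mem_filter.1 hq
      refine mem_filter.2 ⟨hq1, ?_, ?_⟩
      · rw [div_le_iff₀ hℓ]
        exact hq2
      · rw [div_le_iff₀ (by positivity)]
        exact hq3
    exact_mod_cast card_le_card h4
  have hmain : (exceptions A X (Good ε (max K N₀) X W) : ℝ) ≤ X / Real.log X ^ U := by
    unfold exceptions
    refine h1 W hW hWX' _ (filter_subset _ _) ?_
    intro m hm
    obtain ⟨_, a, b, ha, hb, hg⟩ := mem_filter.1 hm
    exact ⟨a, b, ha.1, ha.2.1, ha.2.2, hb.1, hb.2.1, hb.2.2, fun hc => hg (hmono a b hc)⟩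
  refine ⟨hmain, le_trans ?_ hmain⟩
  unfold primeExceptions exceptions
  have h5 : (Icc 1 X).filter (fun p : ℕ => p.Prime ∧ ¬ Good ε (max K N₀) X W p (p ^ 2 + p + 1)) ⊆
      (Icc 1 X).filter (fun m : ℕ => ∃ a b : ℕ, (1 ≤ a ∧ a ≤ X ∧ |(a : ℝ) - m| ≤ Real.log X ^ A) ∧
        (1 ≤ b ∧ b ≤ 3 * X ^ 2 ∧ |(b : ℝ) - ((m : ℝ) ^ 2 + m + 1)| ≤ Real.log X ^ A) ∧
        ¬ Good ε (max K N₀) X W a b) := by
    intro p hp
    obtain ⟨hp1, _, hp3⟩ := mem_filter.1 hp
    have hpX := mem_Icc.1 hp1
    refine mem_filter.2 ⟨hp1, p, p ^ 2 + p + 1, ⟨hpX.1, hpX.2, ?_⟩, ⟨by omega, ?_, ?_⟩, hp3⟩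
    · rw [sub_self, abs_zero]
      positivity
    · have h6 : p ^ 2 ≤ X ^ 2 := Nat.pow_le_pow_left hpX.2 2
      have h7 : X ≤ X ^ 2 := Nat.le_self_pow (by norm_num) X
      have h8 : 1 ≤ X := hpX.1.trans hpX.2
      linarith [hpX.2]
    · push_cast
      rw [sub_self, abs_zero]
      positivity
  exact_mod_cast card_le_card h5

end Pool.Agent.Results.MP_82233c_nt.TranslatedPairs
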